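import Mathlib

set_option autoImplicit false

namespace Pool.Agent.Results.MP_2348bc_co.Pair

/-- every letter is positive and exceeds the running maximum (started at `M`) by at most one -/
def Ok : ℕ → List ℕ → Prop
  | _, [] => True
  | M, x :: t => 1 ≤ x ∧ x ≤ M + 1 ∧ Ok (max M x) t

/-- restricted growth functions -/
def IsRGF (w : List ℕ) : Prop := Ok 0 w

/-- `s` has the same length and the same relative order as `v` -/
def SameOrder (v s : List ℕ) : Prop :=
  s.length = v.length ∧ ∀ a < v.length, ∀ b < v.length,
    (s.getD a 0 < s.getD b 0 ↔ v.getD a 0 < v.getD b 0) ∧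
      (s.getD a 0 = s.getD b 0 ↔ v.getD a 0 = v.getD b 0)

instance (v s : List ℕ) : Decidable (SameOrder v s) := by unfold SameOrder; infer_instance

/-- number of copies of `v` in `w`: `w.sublists'` has one entry for each set of positions -/
def copies (v w : List ℕ) : ℕ := w.sublists'.countP fun s => decide (SameOrder v s)

def R (n k : ℕ) (v : List ℕ) : Set (List ℕ) := {w | w.length = n ∧ IsRGF w ∧ copies v w = k}

/-! ### counting sublists -/

def cnt {α : Type} (P : List α → Bool) (w : List α) : ℕ := w.sublists'.countP P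

theorem cnt_nil {α : Type} (P : List α → Bool) : cnt P [] = if P [] then 1 else 0 := by
  simp [cnt, List.countP_cons]

theorem cnt_cons {α : Type} (P : List α → Bool) (a : α) (w : List α) :
    cnt P (a :: w) = cnt P w + cnt (fun s => P (a :: s)) w := by
  simp [cnt, List.sublists'_cons, List.countP_map, Function.comp_def]

theorem cnt_false {α : Type} (w : List α) : cnt (fun _ => false) w = 0 := by simp [cnt]

theorem cnt_congr {α : Type} {P Q : List α → Bool} (w : List α)
    (h : ∀ s, (∀ x ∈ s, x ∈ w) → P s = Q s) : cnt P w = cnt Q w := by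
  unfold cnt
  refine List.countP_congr fun s hs => ?_
  rw [h s fun x hx => (List.mem_sublists'.1 hs).subset hx]

theorem cnt_or {α : Type} (P Q : List α → Bool) (w : List α) (h : ∀ s, P s = true → Q s = false) :
    cnt (fun s => P s || Q s) w = cnt P w + cnt Q w := by
  unfold cnt
  induction w.sublists' with
  | nil => simp
  | cons s l ih =>
    simp only [List.countP_cons, ih]
    have := h s
    cases hp : P s <;> cases hq : Q s <;> simp_all <;> omega

theorem cnt_map {α β : Type} (f : α → β) (w : List α) :
    ∀ P : List β → Bool, cnt P (w.map f) = cnt (fun s => P (s.map f)) w := by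
  induction w with
  | nil => intro P; simp [cnt_nil]
  | cons a w ih => intro P; simp only [List.map_cons, cnt_cons, ih]

theorem cnt_filter {α : Type} (q : α → Bool) (w : List α) :
    ∀ P : List α → Bool, cnt P (w.filter q) = cnt (fun s => P s && s.all q) w := by
  induction w with
  | nil => intro P; simp [cnt_nil]
  | cons a w ih =>
    intro P
    by_cases h : q a = true
    · simp only [List.filter_cons, h, if_true, cnt_cons, ih, List.all_cons, Bool.true_and]
    · simp only [List.filter_cons, h, cnt_cons, ih, List.all_cons]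
      simp [cnt_false, ih]

theorem cnt_reverse {α : Type} (P : List α → Bool) (w : List α) :
    cnt P w.reverse = cnt (fun s => P s.reverse) w := by
  unfold cnt
  rw [List.sublists'_reverse, List.countP_map, (List.sublists_perm_sublists' w).countP_eq]
  rfl

/-! ### flipping a mask -/

def flp (m : List Bool) : List Bool :=
  m.reverse.dropWhile (fun b => !b) ++ m.reverse.takeWhile (fun b => !b)

theorem cnt_drop (P : List Bool → Bool) (hP : ∀ s, P (false :: s) = false) (l : List Bool) :
    cnt P (l.dropWhile fun b => !b) = cnt P l := by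
  induction l with
  | nil => rfl
  | cons a l ih =>
    cases a
    · simp only [List.dropWhile_cons, Bool.not_false, if_true, ih, cnt_cons, hP, cnt_false,
        add_zero]
    · simp

theorem take_eq (l : List Bool) :
    l.takeWhile (fun b => !b) = List.replicate (l.takeWhile fun b => !b).length false := by
  rw [List.eq_replicate_iff]
  exact ⟨rfl, fun b hb => by simpa using List.mem_takeWhile_imp hb⟩

theorem drop_rep (k : ℕ) (l : List Bool) :
    (List.replicate k false ++ l).dropWhile (fun b => !b) = l.dropWhile fun b => !b := by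
  induction k with
  | zero => rfl
  | succ k ih => simp [List.replicate_succ, ih]

theorem take_rep (k : ℕ) (l : List Bool) :
    (List.replicate k false ++ true :: l).takeWhile (fun b => !b) = List.replicate k false := by
  induction k with
  | zero => simp
  | succ k ih => simp [List.replicate_succ, ih]

theorem cnt_flp (m : List Bool) : cnt (fun s => s == [true, false, true, true]) (flp m) =
    cnt (fun s => s == [true, true, false, true]) m := by
  have e : ∀ s : List Bool, (s.reverse == [true, true, false, true]) =
      (s == [true, false, true, true]) := by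
    intro s
    rw [Bool.eq_iff_iff, beq_iff_eq, beq_iff_eq, List.reverse_eq_iff]
    rfl
  have key : ∀ l : List Bool, cnt (fun s => s == [true, true, false, true]) l.reverse =
      cnt (fun s => s == [true, false, true, true]) l := by
    intro l; rw [cnt_reverse]; simp only [e]
  unfold flp
  rw [← key, List.reverse_append, take_eq, List.reverse_replicate,
    ← cnt_drop _ (by simp), drop_rep, cnt_drop _ (by simp), key, cnt_drop _ (by simp), ← key,
    List.reverse_reverse]

theorem flp_perm (m : List Bool) : (flp m).Perm m := by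
  unfold flp
  refine List.perm_append_comm.trans ?_
  rw [List.takeWhile_append_dropWhile]
  exact List.reverse_perm m

theorem flp_struct' (l : List Bool) (h : true ∈ l) : ∃ (k : ℕ) (u : List Bool),
    l = List.replicate k false ++ true :: u := by
  induction l with
  | nil => simp at h
  | cons a l ih =>
    cases a
    · obtain ⟨k, u, e⟩ := ih (by simpa using h)
      exact ⟨k + 1, u, by rw [e]; rfl⟩
    · exact ⟨0, l, rfl⟩

theorem flp_struct (t : List Bool) : ∃ (k : ℕ) (u : List Bool),
    (true :: t).reverse = List.replicate k false ++ true :: u :=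
  flp_struct' _ (by simp)

theorem flp_head (t : List Bool) : ∃ u, flp (true :: t) = true :: u := by
  obtain ⟨k, u, h⟩ := flp_struct t
  unfold flp
  rw [h, drop_rep, take_rep]
  exact ⟨_, by simp; rfl⟩

theorem flp_flp (t : List Bool) : flp (flp (true :: t)) = true :: t := by
  obtain ⟨k, u, h⟩ := flp_struct t
  have h1 : flp (true :: t) = true :: u ++ List.replicate k false := by
    unfold flp; rw [h, drop_rep, take_rep]; simp
  have h2 : true :: t = (true :: u).reverse ++ List.replicate k false := by
    rw [← List.reverse_reverse (true :: t), h]; simp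
  obtain ⟨v, hv⟩ : ∃ v, (true :: u).reverse = true :: v := by
    rcases hr : (true :: u).reverse with _ | ⟨a, v⟩
    · simp at hr
    · rw [hr] at h2
      exact ⟨v, by rw [(List.cons.inj h2).1]⟩
  rw [h1, h2]
  unfold flp
  rw [List.reverse_append, List.reverse_replicate, hv, drop_rep, take_rep]
  simp

/-! ### splitting off the letter 1 -/

def mask (w : List ℕ) : List Bool := w.map fun x => x == 1

def rest (w : List ℕ) : List ℕ := (w.filter fun x => x != 1).map fun x => x - 1

def merge : List Bool → List ℕ → List ℕ
  | [], _ => []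
  | true :: m, r => 1 :: merge m r
  | false :: m, [] => merge m []
  | false :: m, x :: r => (x + 1) :: merge m r

theorem merge_spec : ∀ (m : List Bool) (r : List ℕ), (∀ x ∈ r, 1 ≤ x) →
    m.count false = r.length →
      mask (merge m r) = m ∧ rest (merge m r) = r ∧ ∀ x ∈ merge m r, 1 ≤ x
  | [], r, _, h => by
    have : r = [] := List.length_eq_zero_iff.1 (by simpa using h.symm)
    subst this; simp [merge, mask, rest]
  | true :: m, r, h1, h => by
    obtain ⟨a, b, c⟩ := merge_spec m r h1 (by simpa using h)
    unfold mask rest at *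
    simp only [merge]
    refine ⟨by simp [a], by simpa using b, by simpa using c⟩
  | false :: m, [], _, h => by simp at h
  | false :: m, x :: r, h1, h => by
    obtain ⟨a, b, c⟩ := merge_spec m r (fun y hy => h1 y (by simp [hy])) (by simpa using h)
    have hx : x ≠ 0 := by have := h1 x (by simp); omega
    unfold mask rest at *
    simp only [merge]
    refine ⟨by simp [a, hx], by simpa [hx] using b, by simpa using c⟩

theorem merge_mask (w : List ℕ) (h : ∀ x ∈ w, 1 ≤ x) :
    merge (mask w) (rest w) = w ∧ (mask w).count false = (rest w).length := by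
  induction w with
  | nil => simp [mask, rest, merge]
  | cons x w ih =>
    obtain ⟨a, b⟩ := ih fun y hy => h y (by simp [hy])
    have hx := h x (by simp)
    unfold mask rest at *
    by_cases e : x = 1
    · subst e; simp [merge, a, b]
    · have e' : (x == 1) = false := by simpa using e
      simp only [List.map_cons, e', List.filter_cons, bne_iff_ne, ne_eq, e, not_false_eq_true,
        if_true, merge, a, List.count_cons_self, List.length_cons, b]
      exact ⟨by congr 1; omega, trivial⟩

theorem ok_succ (w : List ℕ) : ∀ M, Ok (M + 1) w ↔ (∀ x ∈ w, 1 ≤ x) ∧ Ok M (rest w) := by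
  induction w with
  | nil => intro M; simp [Ok, rest]
  | cons x w ih =>
    intro M
    unfold rest at *
    by_cases e : x = 1
    · subst e
      simp [Ok, ih]
    · simp only [Ok, List.filter_cons, bne_iff_ne, ne_eq, e, not_false_eq_true, if_true,
        List.map_cons, List.mem_cons, forall_eq_or_imp]
      constructor
      · rintro ⟨a, b, c⟩
        rw [show max (M + 1) x = max M (x - 1) + 1 by omega, ih] at c
        exact ⟨⟨a, c.1⟩, by omega, by omega, c.2⟩
      · rintro ⟨⟨a, b⟩, c, d, f⟩
        rw [show max (M + 1) x = max M (x - 1) + 1 by omega, ih]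
        exact ⟨a, by omega, b, f⟩

theorem rgf_cons (x : ℕ) (w : List ℕ) :
    IsRGF (x :: w) ↔ x = 1 ∧ (∀ y ∈ x :: w, 1 ≤ y) ∧ IsRGF (rest (x :: w)) := by
  unfold IsRGF
  constructor
  · rintro ⟨a, b, c⟩
    obtain rfl : x = 1 := by omega
    have := (ok_succ w 0).1 c
    exact ⟨rfl, by simpa using this.1, this.2⟩
  · rintro ⟨rfl, b, c⟩
    exact ⟨le_rfl, le_rfl, (ok_succ w 0).2 ⟨fun y hy => b y (by simp [hy]), c⟩⟩

theorem rgf_pos {w : List ℕ} (h : IsRGF w) : ∀ y ∈ w, 1 ≤ y := by
  cases w with
  | nil => simp
  | cons x w => exact ((rgf_cons x w).1 h).2.1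

theorem so_len {v s : List ℕ} (h : v.length = 4) (hs : s.length ≠ 4) : ¬ SameOrder v s :=
  fun e => hs (e.1.trans h)

theorem so1 (a b c d : ℕ) : SameOrder [1, 1, 2, 1] [a, b, c, d] ↔ a = b ∧ a = d ∧ a < c := by
  constructor
  · rintro ⟨-, h⟩
    exact ⟨(h 0 (by decide) 1 (by decide)).2.2 rfl, (h 0 (by decide) 3 (by decide)).2.2 rfl,
      (h 0 (by decide) 2 (by decide)).1.2 (by decide)⟩
  · rintro ⟨rfl, rfl, h⟩
    refine ⟨rfl, fun i hi j hj => ?_⟩
    simp only [List.length_cons, List.length_nil] at hi hj
    interval_cases i <;> interval_cases j <;> simp [h, h.ne, h.ne', h.le]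

theorem so2 (a b c d : ℕ) : SameOrder [1, 2, 1, 1] [a, b, c, d] ↔ a = c ∧ a = d ∧ a < b := by
  constructor
  · rintro ⟨-, h⟩
    exact ⟨(h 0 (by decide) 2 (by decide)).2.2 rfl, (h 0 (by decide) 3 (by decide)).2.2 rfl,
      (h 0 (by decide) 1 (by decide)).1.2 (by decide)⟩
  · rintro ⟨rfl, rfl, h⟩
    refine ⟨rfl, fun i hi j hj => ?_⟩
    simp only [List.length_cons, List.length_nil] at hi hj
    interval_cases i <;> interval_cases j <;> simp [h, h.ne, h.ne', h.le]

theorem split (v : List ℕ) (p : List Bool) (hv : v.length = 4) (hp : p.length = 4)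
    (hp' : ∀ s : List ℕ, s.map (fun x => x == 1) = p → s.all (fun x => x != 1) = false)
    (h : ∀ a b c d : ℕ, 1 ≤ a → 1 ≤ b → 1 ≤ c → 1 ≤ d → (SameOrder v [a, b, c, d] ↔
      [a == 1, b == 1, c == 1, d == 1] = p ∨ (SameOrder v [a - 1, b - 1, c - 1, d - 1] ∧
        a ≠ 1 ∧ b ≠ 1 ∧ c ≠ 1 ∧ d ≠ 1)))
    (w : List ℕ) (hw : ∀ x ∈ w, 1 ≤ x) :
    copies v w = cnt (fun s => s == p) (mask w) + copies v (rest w) := by
  change cnt _ w = _ + cnt _ (rest w)
  unfold mask rest
  rw [cnt_map, cnt_map, cnt_filter, ← cnt_or _ _ _ (fun s hs => by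
    rw [hp' s (by simpa using hs), Bool.and_false])]
  refine cnt_congr w fun s hs => ?_
  by_cases hl : s.length = 4
  · match s, hl with
    | [a, b, c, d], _ =>
      rw [Bool.eq_iff_iff]
      simpa [and_assoc] using h a b c d (hw _ (hs _ (by simp))) (hw _ (hs _ (by simp)))
        (hw _ (hs _ (by simp))) (hw _ (hs _ (by simp)))
  · have h1 : (s.map (fun x => x == 1) == p) = false := by
      rw [beq_eq_false_iff_ne]
      intro e
      apply hl
      rw [← hp, ← e, List.length_map]
    simp [so_len hv hl, so_len hv (s := s.map fun x => x - 1) (by simpa using hl), h1]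

theorem split1 (w : List ℕ) (hw : ∀ x ∈ w, 1 ≤ x) : copies [1, 1, 2, 1] w =
    cnt (fun s => s == [true, true, false, true]) (mask w) + copies [1, 1, 2, 1] (rest w) := by
  refine split _ _ rfl rfl ?_ ?_ w hw
  · rintro (_ | ⟨a, s⟩) h <;> simp_all
  · intro a b c d _ _ _ _
    simp only [so1, List.cons.injEq, beq_iff_eq, beq_eq_false_iff_ne, and_true]
    omega

theorem split2 (w : List ℕ) (hw : ∀ x ∈ w, 1 ≤ x) : copies [1, 2, 1, 1] w =
    cnt (fun s => s == [true, false, true, true]) (mask w) + copies [1, 2, 1, 1] (rest w) := by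
  refine split _ _ rfl rfl ?_ ?_ w hw
  · rintro (_ | ⟨a, s⟩) h <;> simp_all
  · intro a b c d _ _ _ _
    simp only [so2, List.cons.injEq, beq_iff_eq, beq_eq_false_iff_ne, and_true]
    omega

def phi : ℕ → List ℕ → List ℕ
  | 0, w => w
  | f + 1, w => merge (flp (mask w)) (phi f (rest w))

theorem phi_spec : ∀ (f : ℕ) (w : List ℕ), w.length ≤ f → IsRGF w →
    IsRGF (phi f w) ∧ (phi f w).length = w.length ∧ phi f (phi f w) = w ∧
      copies [1, 2, 1, 1] (phi f w) = copies [1, 1, 2, 1] w := by
  intro f
  induction f with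
  | zero =>
    intro w h hw
    obtain rfl : w = [] := List.length_eq_zero_iff.1 (by omega)
    exact ⟨hw, rfl, rfl, by decide⟩
  | succ f ih =>
    intro w h hw
    cases w with
    | nil =>
      have := (ih [] (by simp) hw).2.1
      have e : phi (f + 1) [] = [] := rfl
      rw [e, e]
      exact ⟨hw, rfl, rfl, by decide⟩
    | cons x w =>
      obtain ⟨rfl, h1, h2⟩ := (rgf_cons x w).1 hw
      obtain ⟨m1, m2⟩ := merge_mask _ h1
      have hl : (rest (1 :: w)).length ≤ f := by
        have : (rest (1 :: w)).length ≤ w.length := by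
          simp only [rest, List.length_map]
          simpa using List.length_filter_le _ w
        simp at h; omega
      obtain ⟨a, b, c, d⟩ := ih _ hl h2
      obtain ⟨s1, s2, s3⟩ := merge_spec (flp (mask (1 :: w))) (phi f (rest (1 :: w)))
        (rgf_pos a) (by rw [(flp_perm _).count_eq, m2, b])
      have e : phi (f + 1) (1 :: w) = merge (flp (mask (1 :: w))) (phi f (rest (1 :: w))) := rfl
      have hm : mask (1 :: w) = true :: mask w := rfl
      refine ⟨?_, ?_, ?_, ?_⟩
      · rw [e]
        obtain ⟨u, hu⟩ := flp_head (mask w)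
        rw [hm, hu] at s2 s3 ⊢
        simp only [merge] at s2 s3 ⊢
        exact (rgf_cons _ _).2 ⟨rfl, s3, by rw [s2]; exact a⟩
      · have := congrArg List.length s1
        rw [(flp_perm _).length_eq] at this
        simpa [mask, e] using this
      · rw [e]
        show merge (flp (mask _)) (phi f (rest _)) = _
        rw [s1, s2, c, hm, flp_flp, ← hm, m1]
      · rw [e, split2 _ s3, split1 _ h1, s1, s2, d, cnt_flp]

theorem result : ∃ v w : List ℕ, IsRGF v ∧ IsRGF w ∧ v ≠ w ∧
    ∀ n k : ℕ, (R n k v).Finite ∧ (R n k w).Finite ∧ (R n k v).ncard = (R n k w).ncard := by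
  have fin : ∀ n k v, (R n k v).Finite := by
    intro n k v
    have bd : ∀ (w : List ℕ) M, Ok M w → ∀ x ∈ w, x ≤ M + w.length := by
      intro w
      induction w with
      | nil => simp
      | cons y w ih =>
        rintro M ⟨a, b, c⟩ x hx
        rcases List.mem_cons.1 hx with rfl | hx
        · simp; omega
        · have := ih _ c x hx
          simp; omega
    refine ((List.finite_length_eq (Fin (n + 1)) n).image (List.map Fin.val)).subset ?_
    rintro w ⟨h1, h2, -⟩
    refine ⟨w.pmap (fun x (h : x < n + 1) => ⟨x, h⟩) fun x hx => ?_, by simpa using h1, ?_⟩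
    · have := bd w 0 h2 x hx
      omega
    · simp [List.map_pmap]
  refine ⟨[1, 1, 2, 1], [1, 2, 1, 1], by simp [IsRGF, Ok], by simp [IsRGF, Ok], by decide,
    fun n k => ⟨fin _ _ _, fin _ _ _, ?_⟩⟩
  refine Set.ncard_congr (fun w _ => phi n w) ?_ ?_ ?_
  · rintro w ⟨h1, h2, h3⟩
    obtain ⟨a, b, -, d⟩ := phi_spec n w h1.le h2
    exact ⟨b.trans h1, a, d.trans h3⟩
  · rintro u w ⟨h1, h2, -⟩ ⟨g1, g2, -⟩ e
    rw [← (phi_spec n u h1.le h2).2.2.1, e, (phi_spec n w g1.le g2).2.2.1]
  · rintro w ⟨h1, h2, h3⟩
    obtain ⟨a, b, c, -⟩ := phi_spec n w h1.le h2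
    refine ⟨phi n w, ⟨b.trans h1, a, ?_⟩, c⟩
    rw [← (phi_spec n _ (b.trans h1).le a).2.2.2, c, h3]

end Pool.Agent.Results.MP_2348bc_co.Pair
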